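import Pool.Agent.H10.GB.Fin
import Pool.Graph.R_pool_sql_team_seeded_63374d34.N333.GR.Rec
import Pool.Graph.R_pool_sql_team_seeded_63374d34.N333.GR.Big
import Pool.Graph.R_pool_sql_team_seeded_63374d34.N333.GR.Dbl
import Pool.Graph.R_pool_sql_team_seeded_63374d34.N333.GR.Run

/-!
# The gcd recursion for Goldbach pairs: `g_N ≥ exp (c (log N) ^ (1/3))` for almost all `N`

`a N` is the recursion `a_1, a_2, …` of the problem for the parameter `N` and `g N = g_N` its least
zero `n ≥ 2`. For all large `N` only `g_N ≥ c (log N)²` is known (starting result LogSquared), for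
almost all `N` the bound `g_N ≥ exp (c (log N) ^ (1/4))` (starting results SlowForAlmostAll,
AlmostAllDefect). Here the exponent is `1/3`, and the `N` may be taken from an arbitrary interval of
length `X` (with `log X` in place of `log N`), or from an arbitrary family of numbers which is not
concentrated in residue classes.

Proof (`Pool/Agent/H10/GB`, with the modules REC, BIG, RUN of SlowForAlmostAll). Put
`T n = 2 N - n - 2 a (n - 1)`; the gcds (jumps) at the odd steps `n ≤ G = 2 ^ h` divide `T n` and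
`2 N - n`. If `T` becomes large within `G` steps, then at one of `O(h)` levels `D` there is a run of
`r = O(h)` successive jumps of size at least `D` such that half of the sums in between are smaller
than `D / Y`. The number of `N` with given jumps `d_1, …, d_r` is about `X / lcm (d_i)`. In
SlowForAlmostAll the least common multiple is compared with the product, with the loss `G ^ (r²)`,
which must be compensated by `Y ^ (r/2)`, so that `log Y` has order `h²`. Here we use that for all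
`N` but a proportion `G ^ 2 / 2 ^ W` the numbers `2 N - n`, `n ≤ G` odd, have fewer than `W` prime
factors `≤ G`, and that the gcd of `d_i` with the least common multiple of the earlier jumps has all
its prime factors `≤ G` and divides `2 N - n_i`, for every `N` which has the earlier jumps: there are
at most `2 ^ W` possibilities for it, and for each of them the weights of the next jump are as small
as before. So `log Y` may have the order `h`, the sizes of the jumps the order `exp (C h²)` and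
`log X` the order `h³`.
-/

set_option autoImplicit false

namespace Pool.Agent.Results.MP_b5e119_nt.AlmostAllCubeRoot

open Finset Filter

/-- the recursion of the problem: `a_1 = N - 2`, and
`a_n = a_{n-1} - gcd(a_{n-1}, N - (-1)^n (N - n))` for `n ≥ 2` (and `a_0 = 0`, not used) -/
noncomputable def a (N : ℕ) : ℕ → ℤ
  | 0 => 0
  | 1 => (N : ℤ) - 2
  | (n + 2) => a N (n + 1) - ((Int.gcd (a N (n + 1))
      ((N : ℤ) - (-1) ^ (n + 2) * ((N : ℤ) - ((n + 2 : ℕ) : ℤ))) : ℕ) : ℤ)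

/-- `g_N`: the least `n ≥ 2` with `a_n = 0` -/
noncomputable def g (N : ℕ) : ℕ := sInf {n : ℕ | 2 ≤ n ∧ a N n = 0}

/-- the integers `N ≥ 3` of the interval `(Y, Y + X]` -/
def window (Y X : ℕ) : Finset ℕ := (Ioc Y (Y + X)).filter (fun N => 3 ≤ N)

/-- every residue class modulo every odd `q` contains at most `A / q + E` elements of `S` -/
def Spread (S : Finset ℕ) (A E : ℝ) : Prop :=
  ∀ q r : ℕ, q % 2 = 1 → ((S.filter (fun N : ℕ => N % q = r)).card : ℝ) ≤ A / q + E

lemma a_eq (N n : ℕ) : a N n = Pool.Agent.N333.GR.a N n := by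
  induction n using Nat.strong_induction_on with
  | _ n ih =>
    match n with
    | 0 => rw [a, Pool.Agent.N333.GR.a]
    | 1 => rw [a, Pool.Agent.N333.GR.a]
    | n + 2 => rw [a, Pool.Agent.N333.GR.a, ih (n + 1) (by omega)]

lemma g_eq (N : ℕ) : g N = Pool.Agent.N333.GR.g N := by
  unfold g Pool.Agent.N333.GR.g
  simp only [a_eq]

open Classical in
theorem main (h w Y X : ℕ) (hh : 1 ≤ h) (hw : h ≤ w) (hw40 : 40 ≤ w)
    (hX : 2 ^ (100000000 * (h ^ 2 * w)) ≤ X) :
    (((Pool.Agent.H10.GB.Iv Y X).filter (fun N : ℕ => ¬ (2 ^ h < Pool.Agent.N333.GR.g N ∧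
      ∀ n, 1 ≤ n → n ≤ 2 ^ h →
      (N : ℤ) - 2 ^ (100000000 * (h * w)) ≤ Pool.Agent.N333.GR.a N n))).card : ℝ) ≤
      (X : ℝ) / 2 ^ w :=
  Pool.Agent.H10.GB.mainI Pool.Agent.N333.GR.Rec.t_REC Pool.Agent.N333.GR.BIG.t_BIG
    (Pool.Agent.N333.GR.Run.t_RUN Pool.Agent.N333.GR.Dbl.t_DBL) h w Y X hh hw hw40 hX

open Classical in
theorem main' (h : ℕ) (hh : 40 ≤ h) (Y X : ℕ) (hX : 2 ^ (100000000 * h ^ 3) ≤ X) :
    (((Pool.Agent.H10.GB.Iv Y X).filter (fun N : ℕ => ¬ (2 ^ h < Pool.Agent.N333.GR.g N ∧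
      ∀ n, 1 ≤ n → n ≤ 2 ^ h →
      (N : ℤ) - 2 ^ (100000000 * h ^ 2) ≤ Pool.Agent.N333.GR.a N n))).card : ℝ) ≤
      (X : ℝ) / 2 ^ h := by
  have h1 := main h h Y X (by omega) le_rfl hh (by
    rw [show h ^ 2 * h = h ^ 3 by ring]
    exact hX)
  rw [show h * h = h ^ 2 by ring] at h1
  exact h1

open Classical in
/-- (1) There is `C` such that for every interval `(Y, Y + X]` and all `h ≥ 1` with
`X ≥ 2 ^ (C h ^ 3)`, all but at most `X ^ (1 - 1 / (C h ^ 2))` of the `N ≥ 3` of the interval satisfy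
`g_N > 2 ^ h` and `a_n ≥ N - X ^ (1 / h)` for all `n ≤ 2 ^ h`. (2) There are `c, C > 0` and `m₀` such
that for every interval `(Y, Y + X]` and all `m ≥ m₀`, all but at most `2 X / m` of the `N ≥ 3` of
the interval satisfy `g_N > n` and `a_n ≥ N - exp (C (log n) ^ 2)` for every `n` with
`m ≤ n ≤ exp (c (log X) ^ (1/3))`. (3) There is `c > 0` such that for all large `X` and all `Y`,
`g_N ≥ exp (c (log X) ^ (1/3))` for all but at most `X exp (- c (log X) ^ (1/3))` of the `N ≥ 3` of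
`(Y, Y + X]`. (4) There is `C` such that for all reals `A ≥ 0`, `E ≥ 1`, every finite set `S` of
integers `N ≥ 3` with at most `A / q + E` elements in each residue class modulo each odd `q`, and all
`1 ≤ h ≤ w`, `w ≥ C`, all but at most `A / 2 ^ w + E 2 ^ (C h ^ 2 w)` of the `N ∈ S` satisfy
`g_N > 2 ^ h` and `a_n ≥ N - 2 ^ (C h w)` for all `n ≤ 2 ^ h`. -/
theorem result :
    (∃ C : ℕ, 0 < C ∧ ∀ h Y X : ℕ, 1 ≤ h → 2 ^ (C * h ^ 3) ≤ X →
      (((window Y X).filter (fun N : ℕ => ¬ (2 ^ h < g N ∧ ∀ n, 1 ≤ n → n ≤ 2 ^ h →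
        (N : ℝ) - (X : ℝ) ^ (1 / (h : ℝ)) ≤ a N n))).card : ℝ) ≤
        (X : ℝ) ^ (1 - 1 / ((C : ℝ) * (h : ℝ) ^ 2))) ∧
    (∃ c C : ℝ, 0 < c ∧ 0 < C ∧ ∃ m₀ : ℕ, ∀ Y X m : ℕ, m₀ ≤ m →
      (((window Y X).filter (fun N : ℕ => ¬ ∀ n : ℕ, m ≤ n →
        (n : ℝ) ≤ Real.exp (c * (Real.log X) ^ (1 / 3 : ℝ)) →
        n < g N ∧ (N : ℝ) - Real.exp (C * (Real.log n) ^ 2) ≤ a N n)).card : ℝ) ≤ 2 * X / m) ∧
    (∃ c : ℝ, 0 < c ∧ ∀ᶠ X : ℕ in atTop, ∀ Y : ℕ,
      (((window Y X).filter (fun N : ℕ =>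
        (g N : ℝ) < Real.exp (c * (Real.log X) ^ (1 / 3 : ℝ)))).card : ℝ) ≤
        (X : ℝ) * Real.exp (-(c * (Real.log X) ^ (1 / 3 : ℝ)))) ∧
    (∃ C : ℕ, ∀ (S : Finset ℕ) (A E : ℝ), 0 ≤ A → 1 ≤ E → Spread S A E → (∀ N ∈ S, 3 ≤ N) →
      ∀ h w : ℕ, 1 ≤ h → h ≤ w → C ≤ w →
      ((S.filter (fun N : ℕ => ¬ (2 ^ h < g N ∧ ∀ n, 1 ≤ n → n ≤ 2 ^ h →
        (N : ℤ) - 2 ^ (C * (h * w)) ≤ a N n))).card : ℝ) ≤
        A / 2 ^ w + E * 2 ^ (C * (h ^ 2 * w))) := by
  simp only [a_eq, g_eq]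
  refine ⟨⟨4000000000, by norm_num, fun h Y X hh hX => ?_⟩,
    ⟨1 / (16 * (100000000 : ℕ)), 16 * (100000000 : ℕ), by positivity, by positivity, 2 ^ 40,
      fun Y X m hm => Pool.Agent.H10.GB.main4 100000000 (by norm_num) main' Y X m hm⟩,
    Pool.Agent.H10.GB.main3 100000000 (by norm_num) main',
    ⟨30000000, fun S A E hA hE hS hS3 h w hh hw hw40 => ?_⟩⟩
  · have := Pool.Agent.H10.GB.mainU h Y X hh hX (fun w hw hw40 hX' => main h w Y X hh hw hw40 hX')
    push_cast
    exact this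
  · exact Pool.Agent.H10.GB.main2 Pool.Agent.N333.GR.Rec.t_REC Pool.Agent.N333.GR.BIG.t_BIG
      (Pool.Agent.N333.GR.Run.t_RUN Pool.Agent.N333.GR.Dbl.t_DBL) S A E hA hE hS hS3 h w hh hw
      (by omega)

end Pool.Agent.Results.MP_b5e119_nt.AlmostAllCubeRoot
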