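import Pool.Agent.H36.LH.AllL
import Pool.Agent.H36.BF.PowR

/-!
# Goldbach pairs of almost primes in all windows, with a power saving in the number of exceptions

Let `2 N` be an even integer.  In the problem the pair `g + 1`, `2 N - g - 1` is a Goldbach pair of `2 N`, and the
second question asks how far it is from the middle `N`.  Here we count the pairs `x`, `2 N - x` of integers without
prime factors `≤ Y ^ c` with `x` in windows `(n, n + H]`.  For EVERY even `2 N`, every interval `(M, M + Y]` with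
`M + Y ≤ 2 N`, all `λ ≥ (log Y) ^ B` and all but `Y / λ ^ A` of the integers `n` in `(M, M + Y]`, EVERY window
`(n, n + H]` with `H ≥ λ` and `n + H ≤ 2 N` contains the number of such `x` which is predicted by the product of
the local densities of the Goldbach problem for `2 N`, up to the factor `1 ± ε`.  If `λ ^ A > Y`, there are no
exceptions.  For `2 N ≤ Y ^ A` both members of the pairs have at most `r` prime factors.
-/

set_option autoImplicit false

open Filter Finset

namespace Pool.Agent.Results.MP_b5e119_nt.GoldbachPairsInWindows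

/-- all prime factors of `m` are larger than `y` -/
def Rough (y : ℝ) (m : ℕ) : Prop := ∀ p : ℕ, p.Prime → p ∣ m → y < p

open Classical in
/-- the number of the integers `x` in `(n, n + H]` such that all prime factors of `x` and of `2 N - x` are larger
than `y` -/
noncomputable def pairsIn (y : ℝ) (N n H : ℕ) : ℕ :=
  ((Ioc n (n + H)).filter (fun x => Rough y x ∧ Rough y (2 * N - x))).card

open Classical in
/-- the number of the integers `x` in `(n, n + H]` such that `x` and `2 N - x` are primes larger than `y` -/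
noncomputable def primePairsIn (y : ℝ) (N n H : ℕ) : ℕ :=
  ((Ioc n (n + H)).filter (fun x => x.Prime ∧ (2 * N - x).Prime ∧ y < x ∧ y < (2 * N - x : ℕ))).card

/-- the expected number: `H` times the product over the primes `p ≤ y` of `1 - ν / p`, where `ν` is the number of
the residue classes `0, 2 N` modulo `p` -/
noncomputable def expected (y : ℝ) (N H : ℕ) : ℝ :=
  H * ∏ p ∈ (range (⌊y⌋₊ + 1)).filter Nat.Prime, (1 - (if p ∣ 2 * N then 1 else 2) / (p : ℝ))

/-- the window contains the expected number of pairs up to the factor `1 ± ε`, and at most `1 + ε` times this number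
of Goldbach pairs of primes larger than `Y ^ c` -/
def Lawful (ε c : ℝ) (Y N n H : ℕ) : Prop :=
  |(pairsIn ((Y : ℝ) ^ c) N n H : ℝ) - expected ((Y : ℝ) ^ c) N H| ≤ ε * expected ((Y : ℝ) ^ c) N H ∧
  (primePairsIn ((Y : ℝ) ^ c) N n H : ℝ) ≤ (1 + ε) * expected ((Y : ℝ) ^ c) N H

open Pool.Agent.H36.RW Pool.Agent.H36.BF Pool.Agent.H373R2.T7 Pool.Agent.H36.BE Pool.Agent.H36.KT Pool.Agent.H36.LH

/-- the removed classes -/
def RG (N : ℕ) (p x : ℕ) : Prop := p ∣ x ∨ x ≡ 2 * N [MOD p]

lemma nuB_RG (N p : ℕ) (hp : p.Prime) : nuB (RG N) p = if p ∣ 2 * N then 1 else 2 := by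
  classical
  have h3 : nuB (RG N) p = ((range p).filter (fun r => RG N p r)).card := by
    unfold nuB
    congr
  have h4 : (range p).filter (fun r => RG N p r) = {0, 2 * N % p} := by
    ext r
    rw [mem_filter, mem_range, mem_insert, mem_singleton]
    unfold RG
    constructor
    · rintro ⟨h1, h2 | h2⟩
      · left
        exact Nat.eq_zero_of_dvd_of_lt h2 h1
      · right
        rw [← Nat.mod_eq_of_lt h1]
        exact h2
    · rintro (rfl | rfl)
      · exact ⟨hp.pos, Or.inl (dvd_zero p)⟩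
      · exact ⟨Nat.mod_lt _ hp.pos, Or.inr (Nat.mod_modEq _ _)⟩
  rw [h3, h4]
  split_ifs with h
  · rw [Nat.dvd_iff_mod_eq_zero] at h
    rw [h]
    simp
  · rw [card_insert_of_notMem, card_singleton]
    rw [mem_singleton]
    intro h5
    exact h (Nat.dvd_of_mod_eq_zero h5.symm)

lemma per_RG (N : ℕ) : PerB (RG N) 2 := by
  refine ⟨fun p n => ?_, fun p hp => ?_⟩
  · unfold RG
    have h1 : p ∣ n ↔ p ∣ n % p := (Nat.dvd_mod_iff dvd_rfl).symm
    have h2 : n ≡ 2 * N [MOD p] ↔ n % p ≡ 2 * N [MOD p] := by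
      constructor
      · exact fun h => (Nat.mod_modEq n p).trans h
      · exact fun h => (Nat.mod_modEq n p).symm.trans h
    rw [← h1, ← h2]
  · rw [nuB_RG N p hp]
    split_ifs <;> omega

lemma adm_RG (N p : ℕ) (hp : p.Prime) : nuB (RG N) p < p := by
  rw [nuB_RG N p hp]
  split_ifs with h
  · exact hp.one_lt
  · rcases Nat.lt_or_ge 2 p with h1 | h1
    · exact h1
    · have : p = 2 := by
        have := hp.two_le
        omega
      subst this
      exact absurd (dvd_mul_right 2 N) h

lemma expected_eq (y : ℝ) (N H : ℕ) : expected y N H = H * Wg (gam (RG N)) (pz ⌊y⌋₊) := by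
  unfold expected Wg gam
  congr 1
  apply Finset.prod_congr
  · ext p
    rw [mem_filter, mem_range, mem_pz]
    constructor
    · exact fun h => ⟨by omega, h.2⟩
    · exact fun h => ⟨by omega, h.2⟩
  · intro p hp
    rw [nuB_RG N p (mem_pz.1 hp).2]
    split_ifs <;> simp

lemma pairsIn_SC (y : ℝ) (hy : 0 ≤ y) (N n H : ℕ) (hH : n + H ≤ 2 * N) : pairsIn y N n H = SC (RG N) (pz ⌊y⌋₊) n H := by
  classical
  unfold pairsIn SC
  symm
  have key : ∀ x : ℕ, x ≤ 2 * N → ((∀ p ∈ pz ⌊y⌋₊, ¬ RG N p x) ↔ (Rough y x ∧ Rough y (2 * N - x))) := by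
    intro x hx
    have e : ∀ p : ℕ, x ≡ 2 * N [MOD p] ↔ p ∣ 2 * N - x := fun p => Nat.modEq_iff_dvd' hx
    constructor
    · intro h
      constructor
      · intro p hp hd
        by_contra hle
        rw [not_lt] at hle
        exact h p (mem_pz.2 ⟨Nat.le_floor hle, hp⟩) (Or.inl hd)
      · intro p hp hd
        by_contra hle
        rw [not_lt] at hle
        exact h p (mem_pz.2 ⟨Nat.le_floor hle, hp⟩) (Or.inr ((e p).2 hd))
    · rintro ⟨h1, h2⟩ p hp (h3 | h3)
      · have := h1 p (mem_pz.1 hp).2 h3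
        have h4 := (Nat.le_floor_iff hy).1 (mem_pz.1 hp).1
        linarith
      · have := h2 p (mem_pz.1 hp).2 ((e p).1 h3)
        have h4 := (Nat.le_floor_iff hy).1 (mem_pz.1 hp).1
        linarith
  apply card_bij (fun h _ => n + h)
  · intro h hh
    rw [mem_filter, mem_Icc] at hh
    rw [mem_filter, mem_Ioc]
    exact ⟨by omega, (key _ (by omega)).1 hh.2⟩
  · intro x _ x' _ h
    simpa using h
  · intro m hm
    rw [mem_filter, mem_Ioc] at hm
    refine ⟨m - n, ?_, by omega⟩
    rw [mem_filter, mem_Icc]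
    have e1 : n + (m - n) = m := by omega
    rw [e1]
    exact ⟨by omega, (key _ (by omega)).2 hm.2⟩

lemma prime_rough (y : ℝ) (p : ℕ) (hp : p.Prime) (h : y < p) : Rough y p := by
  intro q hq hd
  rw [(Nat.prime_dvd_prime_iff_eq hq hp).1 hd]
  exact h

open Classical in
theorem result (ε : ℝ) (hε : 0 < ε) (A : ℕ) : ∃ (r B : ℕ) (c : ℝ), 0 < c ∧ ∀ᶠ Y : ℕ in atTop,
    (∀ N M : ℕ, ∀ lam : ℝ, Real.log Y ^ B ≤ lam →
      (((Ioc M (M + Y)).filter (fun n => ∃ H : ℕ, lam ≤ H ∧ n + H ≤ 2 * N ∧ ¬ Lawful ε c Y N n H)).card : ℝ) ≤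
        Y / lam ^ A) ∧
    (∀ m : ℕ, 0 < m → m ≤ Y ^ A → Rough ((Y : ℝ) ^ c) m → m.primeFactorsList.length ≤ r) := by
  obtain ⟨B, hB, c, hc, hc2, hall⟩ := lh_all 2 (by norm_num) ε hε A
  refine ⟨⌈2 * (A : ℝ) / c⌉₊, B, c, hc, ?_⟩
  have hLt : Tendsto (fun Y : ℕ => Real.log (Y : ℝ)) atTop atTop :=
    Real.tendsto_log_atTop.comp tendsto_natCast_atTop_atTop
  filter_upwards [hLt.eventually (hall c hc le_rfl), hLt.eventually_ge_atTop 1,
    hLt.eventually (ev_pow_exp 3 (c / 2) (by positivity) 0), eventually_ge_atTop 3] with Y h1 hL1 g5 hY3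
  rw [pow_zero, mul_one] at g5
  have hY0 : (0 : ℝ) < Y := by exact_mod_cast (by omega : 0 < Y)
  have hYr : Real.exp (Real.log Y) = Y := Real.exp_log hY0
  have hyc : (0 : ℝ) ≤ (Y : ℝ) ^ c := by positivity
  have hfl : ⌊(Y : ℝ) ^ c⌋₊ = zE c (Real.log Y) := by
    rw [Real.rpow_def_of_pos hY0, mul_comm]
    rfl
  set L := Real.log (Y : ℝ) with hL
  have hL0 : 0 < L := by linarith
  constructor
  · intro N M lam hlam
    have h2 := h1 Y hYr.le (RG N) (per_RG N) (fun p hp => adm_RG N p hp) M lam hlam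
    refine le_trans (Nat.cast_le.2 (card_le_card ?_)) h2
    intro n hn
    rw [mem_filter] at hn ⊢
    obtain ⟨hn1, H, hH1, hH2, hH3⟩ := hn
    refine ⟨hn1, H, hH1, ?_⟩
    by_contra hcon
    rw [not_lt, ← hfl, ← pairsIn_SC _ hyc N n H hH2, ← expected_eq] at hcon
    apply hH3
    refine ⟨hcon, ?_⟩
    have h3 : primePairsIn ((Y : ℝ) ^ c) N n H ≤ pairsIn ((Y : ℝ) ^ c) N n H := by
      unfold primePairsIn pairsIn
      apply card_le_card
      intro x hx
      rw [mem_filter] at hx ⊢
      exact ⟨hx.1, prime_rough _ _ hx.2.1 hx.2.2.2.1, prime_rough _ _ hx.2.2.1 hx.2.2.2.2⟩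
    have h4 : (primePairsIn ((Y : ℝ) ^ c) N n H : ℝ) ≤ pairsIn ((Y : ℝ) ^ c) N n H := by exact_mod_cast h3
    have h5 := (abs_le.1 hcon).2
    linarith
  · intro m hm0 hmA hr
    have hlog1 : c * L / 2 ≤ Real.log (zE c L) := log_floor_ge (c * L) (by
      have : c / 2 * L = c * L / 2 := by ring
      rw [this] at g5
      exact g5)
    have hlog0 : 0 < Real.log (zE c L) := lt_of_lt_of_le (by positivity) hlog1
    have hz2 : 2 ≤ zE c L := by
      by_contra h1
      push Not at h1
      have h2 : zE c L = 0 ∨ zE c L = 1 := by omega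
      rcases h2 with h2 | h2 <;> rw [h2] at hlog0 <;> simp at hlog0
    have hr' : Pool.Agent.H36.RW.Rough (zE c L) m := by
      rw [← hfl]
      exact (rough_floor _ hyc m).1 hr
    have h6 := rough_length (zE c L) m hz2 hm0 hr'
    have h7 : Real.log m ≤ A * L := by
      have h8 : (m : ℝ) ≤ (Y : ℝ) ^ A := by exact_mod_cast hmA
      have h9 := Real.log_le_log (by exact_mod_cast hm0) h8
      rwa [Real.log_pow] at h9
    have h8 : (m.primeFactorsList.length : ℝ) ≤ 2 * (A : ℝ) / c := by
      rw [le_div_iff₀ hc]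
      have h9 : (m.primeFactorsList.length : ℝ) * (c * L / 2) ≤ (m.primeFactorsList.length : ℝ) * Real.log (zE c L) :=
        mul_le_mul_of_nonneg_left hlog1 (Nat.cast_nonneg _)
      have h10 : (m.primeFactorsList.length : ℝ) * c * L ≤ (2 * A) * L := by
        calc (m.primeFactorsList.length : ℝ) * c * L = 2 * ((m.primeFactorsList.length : ℝ) * (c * L / 2)) := by ring
          _ ≤ 2 * (A * L) := by linarith
          _ = (2 * A) * L := by ring
      exact le_of_mul_le_mul_right h10 hL0
    exact_mod_cast h8.trans (Nat.le_ceil _)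

end Pool.Agent.Results.MP_b5e119_nt.GoldbachPairsInWindows
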