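import Pool.Agent.H36.TV.App
import Pool.Agent.H36.BF.PowR

/-!
# Symmetric almost prime pairs `N - h`, `N + h` in every long window of `h`, for all but very few `N`

In the problem the Goldbach pair `g + 1`, `2 N - g - 1` of `2 N` is `N - h`, `N + h` with `h = N - g - 1`, and the
second question asks how small `h` is.  Let `bs` be a finite set of nonzero integers; the case `bs = {1, -1}` gives
the pairs `N - h`, `N + h`.  For all large `X`, for all `M` with `log M ≤ (log X) ^ 2 / 3`, all `u` and all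
`λ ≥ (log X) ^ B`, for all but `X / λ ^ A` of the integers `N` in `(M, M + X]`, EVERY window `(u, u + H]` with
`H ≥ λ` contains, up to the factor `1 ± ε`, the number of the `h` for which all integers `N + b h` (`b` in `bs`) have
only prime factors `> X ^ c`, which is predicted by the product of the local densities.  If `N ≤ X ^ A` and
`h ≤ X ^ A`, these integers have at most `r` prime factors.
-/

set_option autoImplicit false

open Filter Finset

namespace Pool.Agent.Results.MP_b5e119_nt.SymmetricPairsEveryWindow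

/-- all prime factors of `m` are larger than `y` (so `m` is not `0`) -/
def Rough (y : ℝ) (m : ℤ) : Prop := ∀ p : ℕ, p.Prime → (p : ℤ) ∣ m → y < p

open Classical in
/-- the number of the integers `h` in `(u, u + H]` such that all integers `N + b h` with `b` in `bs` are rough -/
noncomputable def count (bs : Finset ℤ) (y : ℝ) (N u H : ℕ) : ℕ :=
  ((Ioc u (u + H)).filter (fun h : ℕ => ∀ b ∈ bs, Rough y ((N : ℤ) + b * h))).card

open Classical in
/-- the number of the integers `h` in `(u, u + H]` such that all `|N + b h|` with `b` in `bs` are primes larger than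
`y` -/
noncomputable def primeCount (bs : Finset ℤ) (y : ℝ) (N u H : ℕ) : ℕ :=
  ((Ioc u (u + H)).filter (fun h : ℕ => ∀ b ∈ bs, ((N : ℤ) + b * h).natAbs.Prime ∧ y < ((N : ℤ) + b * h).natAbs)).card

open Classical in
/-- the number of the residue classes `h` modulo `p` for which `p` divides one of the integers `N + b h` -/
noncomputable def nu (bs : Finset ℤ) (N p : ℕ) : ℕ :=
  ((range p).filter (fun h : ℕ => ∃ b ∈ bs, (p : ℤ) ∣ (N : ℤ) + b * h)).card

/-- the expected number: `H` times the product over the primes `p ≤ y` of `1 - ν / p` -/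
noncomputable def expected (bs : Finset ℤ) (y : ℝ) (N H : ℕ) : ℝ :=
  H * ∏ p ∈ (range (⌊y⌋₊ + 1)).filter Nat.Prime, (1 - (nu bs N p : ℝ) / p)

/-- the window contains the expected number of configurations up to the factor `1 ± ε`, and at most `1 + ε` times
this number of configurations of primes -/
def Lawful (bs : Finset ℤ) (ε y : ℝ) (N u H : ℕ) : Prop :=
  |(count bs y N u H : ℝ) - expected bs y N H| ≤ ε * expected bs y N H ∧
  (primeCount bs y N u H : ℝ) ≤ (1 + ε) * expected bs y N H

open Pool.Agent.H36.RW Pool.Agent.H36.BF Pool.Agent.H373R2.T7 Pool.Agent.H36.BE Pool.Agent.H36.KT Pool.Agent.H36.LH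
open Pool.Agent.H36.TV

lemma nu_eq (bs : Finset ℤ) (N p : ℕ) : nu bs N p = nuB (F0 bs N) p := by
  classical
  rw [nuB_F0]
  unfold nu
  congr

lemma expected_eq {bs : Finset ℤ} {K : ℕ} (hB : ∀ b ∈ bs, b ≠ 0 ∧ |b| ≤ K) (y : ℝ) (N u H : ℕ) :
    expected bs y N H = H * Wg (gam (Sn (FB bs u) N)) (pz ⌊y⌋₊) := by
  unfold expected Wg gam
  congr 1
  apply Finset.prod_congr
  · ext p
    rw [mem_filter, mem_range, mem_pz]
    constructor
    · exact fun h => ⟨by omega, h.2⟩
    · exact fun h => ⟨by omega, h.2⟩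
  · intro p hp
    rw [nu_eq, nuB_Sn hB u N p (mem_pz.1 hp).2.pos]

lemma count_SC (bs : Finset ℤ) (y : ℝ) (hy : 0 ≤ y) (N u H : ℕ) :
    count bs y N u H = SC (Sn (FB bs u) N) (pz ⌊y⌋₊) 0 H := by
  classical
  unfold count SC
  symm
  have key : ∀ x : ℕ, (∀ p ∈ pz ⌊y⌋₊, ¬ F0 bs N p x) ↔ (∀ b ∈ bs, Rough y ((N : ℤ) + b * x)) := by
    intro x
    constructor
    · intro h b hb p hp hd
      by_contra hle
      rw [not_lt] at hle
      exact h p (mem_pz.2 ⟨Nat.le_floor hle, hp⟩) ⟨b, hb, hd⟩
    · rintro h1 p hp ⟨b, hb, h3⟩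
      have := h1 b hb p (mem_pz.1 hp).2 h3
      have h4 := (Nat.le_floor_iff hy).1 (mem_pz.1 hp).1
      linarith
  apply card_bij (fun h _ => u + h)
  · intro h hh
    rw [mem_filter, mem_Icc] at hh
    rw [mem_filter, mem_Ioc]
    refine ⟨by omega, (key _).1 ?_⟩
    intro p hp
    have h2 := hh.2 p hp
    rw [zero_add] at h2
    exact h2
  · intro x _ x' _ h
    simpa using h
  · intro m hm
    rw [mem_filter, mem_Ioc] at hm
    refine ⟨m - u, ?_, by omega⟩
    rw [mem_filter, mem_Icc]
    refine ⟨by omega, ?_⟩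
    intro p hp
    have h2 := (key _).2 hm.2 p hp
    rw [zero_add]
    have e1 : u + (m - u) = m := by omega
    have h3 : Sn (FB bs u) N p (m - u) ↔ F0 bs N p (u + (m - u)) := Iff.rfl
    rw [h3, e1]
    exact h2

open Classical in
lemma primeCount_le (bs : Finset ℤ) (y : ℝ) (N u H : ℕ) : primeCount bs y N u H ≤ count bs y N u H := by
  unfold primeCount count
  apply card_le_card
  intro h hh
  rw [mem_filter] at hh ⊢
  refine ⟨hh.1, fun b hb => ?_⟩
  obtain ⟨h1, h2⟩ := hh.2 b hb
  intro q hq hd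
  have h3 : q ∣ ((N : ℤ) + b * h).natAbs := by
    rw [← Int.natCast_dvd_natCast, Int.natCast_natAbs, dvd_abs]
    exact hd
  have h4 := (Nat.prime_dvd_prime_iff_eq hq h1).1 h3
  rw [h4]
  exact h2

open Classical in
theorem result (bs : Finset ℤ) (hbs : ∀ b ∈ bs, b ≠ 0) (ε : ℝ) (hε : 0 < ε) (A : ℕ) :
    ∃ (r B : ℕ) (c : ℝ), 0 < c ∧ ∀ᶠ X : ℕ in atTop,
    (∀ M u : ℕ, Real.log M ≤ Real.log X ^ 2 / 3 → ∀ lam : ℝ, Real.log X ^ B ≤ lam →
      (((Ioc M (M + X)).filter (fun N => ∃ H : ℕ, lam ≤ H ∧ ¬ Lawful bs ε ((X : ℝ) ^ c) N u H)).card : ℝ) ≤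
        X / lam ^ A) ∧
    (∀ m : ℤ, |m| ≤ (X : ℤ) ^ A → Rough ((X : ℝ) ^ c) m → m.natAbs.primeFactorsList.length ≤ r) := by
  obtain ⟨K0, hK0⟩ : ∃ K : ℕ, ∀ b ∈ bs, |b| ≤ K := by
    refine ⟨∑ b ∈ bs, b.natAbs, fun b hb => ?_⟩
    have h1 : b.natAbs ≤ ∑ b ∈ bs, b.natAbs := single_le_sum (f := fun b : ℤ => b.natAbs) (fun _ _ => Nat.zero_le _) hb
    have h2 : |b| = (b.natAbs : ℤ) := (Int.natCast_natAbs b).symm
    rw [h2]
    exact_mod_cast h1
  set K := K0 + 1 with hKd
  have hB : ∀ b ∈ bs, b ≠ 0 ∧ |b| ≤ K := by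
    intro b hb
    refine ⟨hbs b hb, (hK0 b hb).trans ?_⟩
    exact_mod_cast (by omega : K0 ≤ K)
  obtain ⟨B, hB1, c, hc, hc2, hall⟩ := tv_all (2 * K) (by omega) ε hε A
  refine ⟨⌈2 * (A : ℝ) / c⌉₊, B, c, hc, ?_⟩
  have hLt : Tendsto (fun Y : ℕ => Real.log (Y : ℝ)) atTop atTop :=
    Real.tendsto_log_atTop.comp tendsto_natCast_atTop_atTop
  filter_upwards [hLt.eventually (hall c hc le_rfl), hLt.eventually_ge_atTop 3,
    hLt.eventually (ev_pow_exp 3 (c / 2) (by positivity) 0),
    hLt.eventually (ev_pow_exp ((2 * K : ℕ) : ℝ) (c / 2) (by positivity) 0), eventually_ge_atTop 3] with X h1 hL1 g5 g6 hX3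
  rw [pow_zero, mul_one] at g5 g6
  have hX0 : (0 : ℝ) < X := by exact_mod_cast (by omega : 0 < X)
  have hXr : Real.exp (Real.log X) = X := Real.exp_log hX0
  have hyc : (0 : ℝ) ≤ (X : ℝ) ^ c := by positivity
  have hfl : ⌊(X : ℝ) ^ c⌋₊ = zE c (Real.log X) := by
    rw [Real.rpow_def_of_pos hX0, mul_comm]
    rfl
  set L := Real.log (X : ℝ) with hL
  have hL0 : 0 < L := by linarith
  have hlog1 : c * L / 2 ≤ Real.log (zE c L) := log_floor_ge (c * L) (by
    have : c / 2 * L = c * L / 2 := by ring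
    rw [this] at g5
    exact g5)
  have hlog0 : 0 < Real.log (zE c L) := lt_of_lt_of_le (by positivity) hlog1
  have hz2 : 2 ≤ zE c L := by
    by_contra h1
    push Not at h1
    have h2 : zE c L = 0 ∨ zE c L = 1 := by omega
    rcases h2 with h2 | h2 <;> rw [h2] at hlog0 <;> simp at hlog0
  constructor
  · intro M u hM lam hlam
    have h2 := h1 X hXr.le (FB bs u) (fun _ => bs.card) (twoB_FB (by omega) hB u) M lam hlam
    refine le_trans (Nat.cast_le.2 (card_le_card ?_)) h2
    intro N hN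
    rw [mem_filter] at hN ⊢
    obtain ⟨hN1, H, hH1, hH3⟩ := hN
    rw [mem_Ioc] at hN1
    have hdev : ε * (H * Wg (gam (Sn (FB bs u) N)) (pz (zE c L))) <
        |(SC (Sn (FB bs u) N) (pz (zE c L)) 0 H : ℝ) - H * Wg (gam (Sn (FB bs u) N)) (pz (zE c L))| := by
      by_contra hcon
      rw [not_lt, ← hfl, ← count_SC _ _ hyc N u H, ← expected_eq hB] at hcon
      apply hH3
      refine ⟨hcon, ?_⟩
      have h4 : (primeCount bs ((X : ℝ) ^ c) N u H : ℝ) ≤ count bs ((X : ℝ) ^ c) N u H := by
        exact_mod_cast primeCount_le bs _ N u H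
      have h5 := (abs_le.1 hcon).2
      linarith
    have hzK : 2 * K ≤ zE c L := by
      have h3 : Real.exp (c * L / 2) ≤ zE c L := by
        rw [← Real.exp_log (by exact_mod_cast (by omega : 0 < zE c L) : (0 : ℝ) < zE c L)]
        exact Real.exp_le_exp.2 hlog1
      have e : c / 2 * L = c * L / 2 := by ring
      rw [e] at g6
      exact_mod_cast g6.trans h3
    have hAd : ∀ p : ℕ, p.Prime → nuB (F0 bs N) p < p := by
      intro p hp
      by_contra hcon
      rw [not_lt] at hcon
      have h3 : PerB (Sn (FB bs u) N) (2 * K) := (twoB_FB (by omega) hB u).row N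
      have h4 := bad_FB h3 (zE c L) hzK p hp (by rw [nuB_Sn hB u N p hp.pos]; exact hcon) H
      rw [h4.1, h4.2] at hdev
      simp at hdev
    refine ⟨mem_Ioc.2 hN1, okn_FB hB u N (zE c L) (by omega) L ?_ hAd, H, hH1, hdev⟩
    -- the size of `N`
    have hNle : (N : ℝ) ≤ M + X := by exact_mod_cast hN1.2
    have hN0 : (0 : ℝ) < N := by exact_mod_cast (by omega : 0 < N)
    have hl2 : (0.69 : ℝ) < Real.log 2 := by
      have := Real.log_two_gt_d9
      linarith
    have hlogM : Real.log N ≤ Real.log 2 + (L ^ 2 / 3 + 0) := by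
      rcases Nat.lt_or_ge X M with h | h
      · have h3 : (N : ℝ) ≤ 2 * M := by
          have : (X : ℝ) ≤ M := by exact_mod_cast h.le
          linarith
        have h4 := Real.log_le_log hN0 h3
        have hM0 : (0 : ℝ) < M := by exact_mod_cast (by omega : 0 < M)
        rw [Real.log_mul (by norm_num) hM0.ne'] at h4
        linarith
      · have h3 : (N : ℝ) ≤ 2 * X := by
          have : (M : ℝ) ≤ X := by exact_mod_cast h
          linarith
        have h4 := Real.log_le_log hN0 h3
        rw [Real.log_mul (by norm_num) hX0.ne'] at h4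
        have h5 : L ≤ L ^ 2 / 3 := by nlinarith
        linarith
    have hl2' : Real.log 2 ≤ 0.7 := by
      have := Real.log_two_lt_d9
      linarith
    nlinarith
  · intro m hmA hr
    have hm0 : 0 < m.natAbs := by
      rcases Nat.eq_zero_or_pos m.natAbs with h | h
      · exfalso
        rw [Int.natAbs_eq_zero] at h
        subst h
        have h3 := hr 2 Nat.prime_two (dvd_zero _)
        have h4 : ((2 : ℕ) : ℝ) ≤ (zE c L : ℝ) := by exact_mod_cast hz2
        have h5 : (zE c L : ℝ) ≤ (X : ℝ) ^ c := by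
          rw [← hfl]
          exact Nat.floor_le hyc
        linarith
      · exact h
    have hr0 : ∀ p : ℕ, p.Prime → p ∣ m.natAbs → (X : ℝ) ^ c < p := by
      intro p hp hd
      apply hr p hp
      have h3 : ((p : ℕ) : ℤ) ∣ ((m.natAbs : ℕ) : ℤ) := Int.natCast_dvd_natCast.2 hd
      rwa [Int.natCast_natAbs, dvd_abs] at h3
    have hr' : Pool.Agent.H36.RW.Rough (zE c L) m.natAbs := by
      rw [← hfl]
      exact (rough_floor _ hyc m.natAbs).1 hr0
    have h6 := rough_length (zE c L) m.natAbs hz2 hm0 hr'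
    have h7 : Real.log m.natAbs ≤ A * L := by
      have h8 : (m.natAbs : ℝ) ≤ (X : ℝ) ^ A := by
        have h10 : ((m.natAbs : ℕ) : ℤ) ≤ (X : ℤ) ^ A := by
          rw [Int.natCast_natAbs]
          exact hmA
        exact_mod_cast h10
      have h9 := Real.log_le_log (by exact_mod_cast hm0) h8
      rwa [Real.log_pow] at h9
    have h8 : (m.natAbs.primeFactorsList.length : ℝ) ≤ 2 * (A : ℝ) / c := by
      rw [le_div_iff₀ hc]
      have h9 : (m.natAbs.primeFactorsList.length : ℝ) * (c * L / 2) ≤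
          (m.natAbs.primeFactorsList.length : ℝ) * Real.log (zE c L) :=
        mul_le_mul_of_nonneg_left hlog1 (Nat.cast_nonneg _)
      have h10 : (m.natAbs.primeFactorsList.length : ℝ) * c * L ≤ (2 * A) * L := by
        calc (m.natAbs.primeFactorsList.length : ℝ) * c * L = 2 * ((m.natAbs.primeFactorsList.length : ℝ) * (c * L / 2)) := by ring
          _ ≤ 2 * (A * L) := by linarith
          _ = (2 * A) * L := by ring
      exact le_of_mul_le_mul_right h10 hL0
    exact_mod_cast h8.trans (Nat.le_ceil _)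

end Pool.Agent.Results.MP_b5e119_nt.SymmetricPairsEveryWindow
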